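import Pool.Agent.H671R2.OOF.Euler

/-!
# A planar graph on `n ≥ 3` vertices has at most `3 n - 6` edges

Planar: some rotation system satisfies Euler's formula `v - e + f = 2 c`.  No condition on the
connectedness or on the degrees.
-/

set_option autoImplicit false

namespace Pool.Agent.R4.Thick

open Pool.Agent.H671R2.OOF Equiv.Perm

variable {V : Type}

theorem reach_closed {G : SimpleGraph V} (S : Set V) (hS : ∀ a ∈ S, ∀ b, G.Adj a b → b ∈ S)
    {a b : V} (ha : a ∈ S) (h : G.Reachable a b) : b ∈ S := by
  obtain ⟨p⟩ := h
  induction p with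
  | nil => exact ha
  | cons hab _ ih => exact ih (hS _ ha _ hab)

theorem phi_fst {G : SimpleGraph V} {σ : Equiv.Perm G.Dart} (hσ : IsRotation G σ) (x : G.Dart) :
    ((σ * revPerm G) x).fst = x.snd := hσ.1 x.symm

theorem phi_ne {G : SimpleGraph V} {σ : Equiv.Perm G.Dart} (hσ : IsRotation G σ) (x : G.Dart) :
    (σ * revPerm G) x ≠ x := fun h => by
  have h1 := phi_fst hσ x
  rw [h] at h1
  exact x.adj.ne h1

/-- a dart in a face of length two is an isolated edge -/
theorem short_dart {G : SimpleGraph V} {σ : Equiv.Perm G.Dart} (hσ : IsRotation G σ) (x : G.Dart)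
    (hx : (σ * revPerm G) ((σ * revPerm G) x) = x) :
    (σ * revPerm G) x = x.symm ∧ (∀ w, G.Adj x.fst w → w = x.snd) ∧
      (∀ w, G.Adj x.snd w → w = x.fst) := by
  have h1 : ((σ * revPerm G) x).snd = x.fst := by
    rw [← phi_fst hσ ((σ * revPerm G) x), hx]
  have h3 : (σ * revPerm G) x = x.symm :=
    SimpleGraph.Dart.ext _ _ (Prod.ext (phi_fst hσ x) h1)
  have h4 : σ x.symm = x.symm := h3
  have h5 : σ x = x := by
    have h6 : (σ * revPerm G) x.symm = x := by rw [← h3]; exact hx
    have h7 : (σ * revPerm G) x.symm = σ x := by
      show σ (x.symm.symm) = σ x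
      rw [SimpleGraph.Dart.symm_symm]
    rw [← h7]; exact h6
  refine ⟨h3, ?_, ?_⟩
  · intro w hw
    obtain ⟨i, hi⟩ := hσ.2 x ⟨(x.fst, w), hw⟩ rfl
    have := Equiv.Perm.zpow_apply_eq_self_of_apply_eq_self h5 i
    rw [this] at hi
    exact (congrArg (fun z : G.Dart => z.snd) hi).symm
  · intro w hw
    obtain ⟨i, hi⟩ := hσ.2 x.symm ⟨(x.snd, w), hw⟩ rfl
    have := Equiv.Perm.zpow_apply_eq_self_of_apply_eq_self h4 i
    rw [this] at hi
    exact (congrArg (fun z : G.Dart => z.snd) hi).symm

open Classical in
/-- `6 f ≤ 4 e + (number of darts in faces of length two)` -/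
theorem six_faces [Fintype V] (G : SimpleGraph V) (σ : Equiv.Perm G.Dart) (hσ : IsRotation G σ) :
    6 * Nat.card (Face G σ) ≤ 2 * Nat.card G.Dart +
      (Finset.univ.filter (fun x : G.Dart =>
        (σ * revPerm G) ((σ * revPerm G) x) = x)).card := by
  have : Fintype (Face G σ) := Fintype.ofFinite _
  set φ := σ * revPerm G with hφ
  let mk : G.Dart → Face G σ := fun x => Quotient.mk _ x
  let w : G.Dart → ℕ := fun x => if φ (φ x) = x then 3 else 2
  have h1 : ∑ x : G.Dart, w x = 2 * Nat.card G.Dart +
      (Finset.univ.filter (fun x : G.Dart => φ (φ x) = x)).card := by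
    have h2 : ∀ x : G.Dart, w x = 2 + (if φ (φ x) = x then 1 else 0) := by
      intro x
      show (if φ (φ x) = x then 3 else 2) = _
      split_ifs <;> rfl
    rw [Finset.sum_congr rfl (fun x _ => h2 x), Finset.sum_add_distrib, ← Finset.card_filter]
    simp [Nat.card_eq_fintype_card, mul_comm]
  rw [← h1, ← Finset.sum_fiberwise (s := Finset.univ) (g := mk) (f := w)]
  have h3 : ∀ q : Face G σ, 6 ≤ ∑ x ∈ Finset.univ.filter (fun x => mk x = q), w x := by
    intro q
    induction q using Quotient.inductionOn with
    | h x =>
      have hne : φ x ≠ x := phi_ne hσ x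
      have hne' : φ (φ x) ≠ φ x := phi_ne hσ (φ x)
      have hin1 : φ x ∈ Finset.univ.filter (fun y => mk y = Quotient.mk _ x) := by
        rw [Finset.mem_filter]
        refine ⟨Finset.mem_univ _, Quotient.sound ?_⟩
        show φ.SameCycle (φ x) x
        exact sameCycle_apply_left.2 (SameCycle.refl _ _)
      have hin0 : x ∈ Finset.univ.filter (fun y => mk y = Quotient.mk _ x) := by
        rw [Finset.mem_filter]
        exact ⟨Finset.mem_univ _, rfl⟩
      have hin2 : φ (φ x) ∈ Finset.univ.filter (fun y => mk y = Quotient.mk _ x) := by
        rw [Finset.mem_filter]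
        refine ⟨Finset.mem_univ _, Quotient.sound ?_⟩
        show φ.SameCycle (φ (φ x)) x
        exact sameCycle_apply_left.2 (sameCycle_apply_left.2 (SameCycle.refl _ _))
      by_cases hx : φ (φ x) = x
      · have hsub : ({x, φ x} : Finset G.Dart) ⊆
            Finset.univ.filter (fun y => mk y = Quotient.mk _ x) := by
          intro y hy
          rw [Finset.mem_insert, Finset.mem_singleton] at hy
          rcases hy with rfl | rfl
          · exact hin0
          · exact hin1
        refine le_trans ?_ (Finset.sum_le_sum_of_subset hsub)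
        rw [Finset.sum_pair (Ne.symm hne)]
        have e1 : w x = 3 := if_pos hx
        have e2 : w (φ x) = 3 := if_pos (by rw [hx])
        omega
      · have hsub : ({x, φ x, φ (φ x)} : Finset G.Dart) ⊆
            Finset.univ.filter (fun y => mk y = Quotient.mk _ x) := by
          intro y hy
          rw [Finset.mem_insert, Finset.mem_insert, Finset.mem_singleton] at hy
          rcases hy with rfl | rfl | rfl
          · exact hin0
          · exact hin1
          · exact hin2
        refine le_trans ?_ (Finset.sum_le_sum_of_subset hsub)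
        have hw : ∀ y, 2 ≤ w y := by
          intro y
          show 2 ≤ (if φ (φ y) = y then 3 else 2)
          split_ifs <;> omega
        rw [Finset.sum_insert (by
          rw [Finset.mem_insert, Finset.mem_singleton]
          rintro (h | h)
          · exact hne h.symm
          · exact hx h.symm), Finset.sum_pair (Ne.symm hne')]
        have := hw x
        have := hw (φ x)
        have := hw (φ (φ x))
        omega
  calc 6 * Nat.card (Face G σ) = ∑ _q : Face G σ, 6 := by
        rw [Finset.sum_const, Finset.card_univ, Nat.card_eq_fintype_card, smul_eq_mul, mul_comm]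
    _ ≤ _ := Finset.sum_le_sum fun q _ => h3 q

/-- **Euler's bound** -/
theorem edge_bound [Fintype V] (G : SimpleGraph V) (hG : IsPlanar G) (hn : 3 ≤ Nat.card V) :
    Nat.card G.edgeSet + 6 ≤ 3 * Nat.card V := by
  classical
  obtain ⟨σ, hσ, hE⟩ := hG
  set φ := σ * revPerm G with hφ
  have h6 := six_faces G σ hσ
  rw [← hφ] at h6
  have hD : Nat.card G.Dart = 2 * Nat.card G.edgeSet := Eul.card_dart G
  set D2 : Finset G.Dart := Finset.univ.filter (fun x : G.Dart => φ (φ x) = x) with hD2
  have hD2' : (Finset.univ.filter (fun x : G.Dart => φ (φ x) = x)).card = D2.card := by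
    rw [hD2]
  set V0 : Finset V := Finset.univ.filter (fun v => ∀ w, ¬ G.Adj v w) with hV0
  set V1 : Finset V := D2.image (fun x => x.fst) with hV1
  have hI : Nat.card {v : V // ∀ w, ¬ G.Adj v w} = V0.card := by
    rw [Nat.card_eq_fintype_card, Fintype.card_subtype]
  have hshort : ∀ x ∈ D2, (∀ w, G.Adj x.fst w → w = x.snd) ∧ (∀ w, G.Adj x.snd w → w = x.fst) ∧
      x.symm ∈ D2 := by
    intro x hx
    rw [hD2, Finset.mem_filter] at hx
    obtain ⟨h1, h2, h3⟩ := short_dart hσ x hx.2
    refine ⟨h2, h3, ?_⟩
    rw [hD2, Finset.mem_filter]
    refine ⟨Finset.mem_univ _, ?_⟩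
    rw [← h1]
    exact congrArg φ hx.2
  have hcard : V1.card = D2.card := by
    rw [hV1]
    refine Finset.card_image_of_injOn ?_
    intro x hx y hy hxy
    have hx' := hshort x hx
    apply SimpleGraph.Dart.ext
    refine Prod.ext hxy ?_
    have hadj : G.Adj x.fst y.snd := by
      have hxy' : x.fst = y.fst := hxy
      rw [hxy']; exact y.adj
    exact (hx'.1 _ hadj).symm
  have hdisj : ∀ v ∈ V1, v ∉ V0 := by
    intro v hv hv0
    rw [hV1, Finset.mem_image] at hv
    obtain ⟨x, _, rfl⟩ := hv
    rw [hV0, Finset.mem_filter] at hv0
    exact hv0.2 _ x.adj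
  let om : V → ℕ := fun v => (if v ∈ V0 then 6 else 0) + (if v ∈ V1 then 3 else 0)
  have hsum : ∑ v : V, om v = 6 * V0.card + 3 * V1.card := by
    show ∑ v : V, ((if v ∈ V0 then 6 else 0) + (if v ∈ V1 then 3 else 0)) = _
    rw [Finset.sum_add_distrib, Finset.sum_ite_mem, Finset.sum_ite_mem, Finset.univ_inter,
      Finset.univ_inter, Finset.sum_const, Finset.sum_const, smul_eq_mul, smul_eq_mul]
    ring
  have : Fintype G.ConnectedComponent := Fintype.ofFinite _
  have hfib : ∀ v : V, (∑ u ∈ Finset.univ.filter
      (fun u => G.connectedComponentMk u = G.connectedComponentMk v), om u) ≤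
        (if om v = 0 then 0 else 6) := by
    intro v
    have hmem : ∀ (S : Set V), (∀ a ∈ S, ∀ b, G.Adj a b → b ∈ S) → v ∈ S → ∀ u,
        u ∈ Finset.univ.filter (fun u => G.connectedComponentMk u = G.connectedComponentMk v) →
        u ∈ S := by
      intro S hS hv u hu
      rw [Finset.mem_filter] at hu
      exact reach_closed S hS hv (SimpleGraph.ConnectedComponent.exact hu.2).symm
    by_cases h0 : v ∈ V0
    · have hom : om v = 6 := by
        have : v ∉ V1 := fun h => hdisj v h h0
        simp [om, h0, this]
      rw [hom, if_neg (by omega)]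
      have hsub : Finset.univ.filter
          (fun u => G.connectedComponentMk u = G.connectedComponentMk v) ⊆ {v} := by
        intro u hu
        rw [Finset.mem_singleton]
        have h0' := (Finset.mem_filter.1 (hV0 ▸ h0)).2
        have := hmem {v} (by
          intro a ha b hab
          rw [Set.mem_singleton_iff] at ha
          subst ha
          exact absurd hab (h0' b)) rfl u hu
        exact this
      refine (Finset.sum_le_sum_of_subset hsub).trans ?_
      rw [Finset.sum_singleton, hom]
    · by_cases h1 : v ∈ V1
      · have hom : om v = 3 := by simp [om, h0, h1]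
        rw [hom, if_neg (by omega)]
        have h1' := h1
        rw [hV1, Finset.mem_image] at h1'
        obtain ⟨x, hx, hxv⟩ := h1'
        obtain ⟨s1, s2, s3⟩ := hshort x hx
        have hsub : Finset.univ.filter
            (fun u => G.connectedComponentMk u = G.connectedComponentMk v) ⊆
              {x.fst, x.snd} := by
          intro u hu
          have := hmem {x.fst, x.snd} (by
            intro a ha b hab
            rcases ha with rfl | ha
            · exact Or.inr (s1 _ hab)
            · have ha' : a = x.snd := ha
              subst ha'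
              exact Or.inl (s2 _ hab)) (Or.inl hxv.symm) u hu
          rw [Finset.mem_insert, Finset.mem_singleton]
          exact this
        refine (Finset.sum_le_sum_of_subset hsub).trans ?_
        rw [Finset.sum_pair x.adj.ne]
        have e1 : om x.fst = 3 := by rw [hxv]; exact hom
        have m2 : x.snd ∈ V1 := by
          rw [hV1, Finset.mem_image]
          exact ⟨x.symm, s3, rfl⟩
        have e2 : om x.snd = 3 := by
          have := hdisj _ m2
          simp [om, m2, this]
        omega
      · have hom : om v = 0 := by simp [om, h0, h1]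
        rw [hom, if_pos rfl]
        refine le_of_eq (Finset.sum_eq_zero ?_)
        intro u hu
        have hu' := (Finset.mem_filter.1 hu).2
        have hr : G.Reachable u v := SimpleGraph.ConnectedComponent.exact hu'
        have n0 : u ∉ V0 := by
          intro hu0
          have h0' := (Finset.mem_filter.1 (hV0 ▸ hu0)).2
          have := reach_closed {u} (by
            intro a ha b hab
            rw [Set.mem_singleton_iff] at ha
            subst ha
            exact absurd hab (h0' b)) rfl hr
          rw [Set.mem_singleton_iff] at this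
          subst this
          exact h0 hu0
        have n1 : u ∉ V1 := by
          intro hu1
          have hu1' := hu1
          rw [hV1, Finset.mem_image] at hu1'
          obtain ⟨x, hx, hxu⟩ := hu1'
          obtain ⟨s1, s2, s3⟩ := hshort x hx
          have := reach_closed {x.fst, x.snd} (by
            intro a ha b hab
            rcases ha with rfl | ha
            · exact Or.inr (s1 _ hab)
            · have ha' : a = x.snd := ha
              subst ha'
              exact Or.inl (s2 _ hab)) (Or.inl hxu.symm) hr
          rcases this with h | h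
          · apply h1
            rw [hV1, Finset.mem_image]
            exact ⟨x, hx, h.symm⟩
          · apply h1
            rw [hV1, Finset.mem_image]
            exact ⟨x.symm, s3, (h : v = x.snd).symm⟩
        simp [om, n0, n1]
  have htot : ∑ v : V, om v = ∑ c : G.ConnectedComponent, ∑ u ∈ Finset.univ.filter
      (fun u => G.connectedComponentMk u = c), om u :=
    (Finset.sum_fiberwise (s := Finset.univ) (g := G.connectedComponentMk) (f := om)).symm
  have hCc : Nat.card G.ConnectedComponent = Fintype.card G.ConnectedComponent :=
    Nat.card_eq_fintype_card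
  have hle6 : ∀ c : G.ConnectedComponent, ∑ u ∈ Finset.univ.filter
      (fun u => G.connectedComponentMk u = c), om u ≤ 6 := by
    intro c
    induction c using SimpleGraph.ConnectedComponent.ind with
    | h v => exact (hfib v).trans (by split_ifs <;> omega)
  by_cases hz : ∃ v, om v = 0
  · obtain ⟨v, hv⟩ := hz
    have h1 : ∑ v : V, om v + 6 ≤ 6 * Fintype.card G.ConnectedComponent := by
      rw [htot, ← Finset.add_sum_erase _ _ (Finset.mem_univ (G.connectedComponentMk v))]
      have h2 := hfib v
      rw [if_pos hv] at h2
      have h3 : ∑ c ∈ Finset.univ.erase (G.connectedComponentMk v), ∑ u ∈ Finset.univ.filter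
          (fun u => G.connectedComponentMk u = c), om u ≤
          ∑ _c ∈ (Finset.univ : Finset G.ConnectedComponent).erase (G.connectedComponentMk v), 6 :=
        Finset.sum_le_sum fun c _ => hle6 c
      rw [Finset.sum_const, Finset.card_erase_of_mem (Finset.mem_univ _), Finset.card_univ,
        smul_eq_mul] at h3
      have h4 : 0 < Fintype.card G.ConnectedComponent :=
        Fintype.card_pos_iff.2 ⟨G.connectedComponentMk v⟩
      omega
    rw [hsum] at h1
    rw [hI, hCc] at hE
    omega
  · push Not at hz
    have h1 : ∑ v : V, om v ≤ 6 * Fintype.card G.ConnectedComponent := by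
      rw [htot]
      refine (Finset.sum_le_sum fun c _ => hle6 c).trans ?_
      rw [Finset.sum_const, Finset.card_univ, smul_eq_mul, mul_comm]
    rw [hsum] at h1
    have h2 : Nat.card V ≤ V0.card + V1.card := by
      rw [Nat.card_eq_fintype_card, ← Finset.card_univ]
      refine (Finset.card_le_card ?_).trans (Finset.card_union_le V0 V1)
      intro v _
      rw [Finset.mem_union]
      by_contra hh
      push Not at hh
      exact hz v (by simp [om, hh.1, hh.2])
    rw [hI, hCc] at hE
    omega

end Pool.Agent.R4.Thick
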