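import Pool.Agent.R4.Thick.Path

/-!
# The darts of the base triangulation and their keys
-/

set_option autoImplicit false

namespace Pool.Agent.R4.Thick

/-- the two end hubs of the strips -/
def A : Fin 6 → Fin 6 × Bool :=
  ![(4, false), (5, false), (0, true), (2, false), (1, true), (3, true)]

/-- the two end hubs of the strips -/
def B : Fin 6 → Fin 6 × Bool :=
  ![(3, false), (0, false), (5, true), (1, false), (2, true), (4, true)]

/-- colour of the `j`-th point of the strip `s`, `0 ≤ j ≤ 2 t - 1` -/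
def qc (t : ℕ) (s : Fin 6) (j : ℕ) : Fin 6 × Bool :=
  if j = 0 then A s else if j = 2 * t - 1 then B s else (s + 1, pc t j)

/-- position of the `j`-th point of the strip `s`, `0 ≤ j ≤ 2 t - 1` -/
def qp (t : ℕ) (j : ℕ) : ℕ :=
  if j = 0 then 0 else if j = 2 * t - 1 then 0 else pp t j

theorem q_cases (t : ℕ) (ht : 1 ≤ t) (s : Fin 6) (j : ℕ) (hj : j ≤ 2 * t - 1) :
    (j = 0 ∧ qc t s j = A s ∧ qp t j = 0) ∨ (j = 2 * t - 1 ∧ qc t s j = B s ∧ qp t j = 0) ∨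
    (2 ≤ t ∧ 1 ≤ j ∧ j ≤ 2 * t - 2 ∧ qc t s j = (s + 1, pc t j) ∧ qp t j = pp t j ∧
      1 ≤ pp t j ∧ pp t j < t) := by
  unfold qc qp
  by_cases h0 : j = 0
  · left; simp [h0]
  · by_cases h1 : j = 2 * t - 1
    · right; left
      rw [if_neg h0, if_pos h1, if_neg h0, if_pos h1]
      exact ⟨h1, rfl, rfl⟩
    · right; right
      rw [if_neg h0, if_neg h1, if_neg h0, if_neg h1]
      have h2 : 2 ≤ t := by omega
      have := pp_range t j h2 (by omega) (by omega)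
      exact ⟨h2, by omega, by omega, rfl, rfl, this.1, this.2⟩

/-- the four kinds of segments -/
theorem seg_cases (t : ℕ) (ht : 1 ≤ t) (s : Fin 6) (k : ℕ) (hk : k + 1 ≤ 2 * t - 1) :
    (t = 1 ∧ k = 0 ∧ qc t s k = A s ∧ qc t s (k + 1) = B s ∧
      (qp t (k + 1) : ℤ) - qp t k = 0) ∨
    (2 ≤ t ∧ k = 0 ∧ qc t s k = A s ∧ qc t s (k + 1) = (s + 1, false) ∧
      0 < (qp t (k + 1) : ℤ) - qp t k ∧ (qp t (k + 1) : ℤ) - qp t k < t) ∨
    (2 ≤ t ∧ k = 2 * t - 2 ∧ qc t s k = (s + 1, true) ∧ qc t s (k + 1) = B s ∧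
      (qp t (k + 1) : ℤ) - qp t k < 0 ∧ -(t : ℤ) < (qp t (k + 1) : ℤ) - qp t k) ∨
    (2 ≤ t ∧ 1 ≤ k ∧ k ≤ 2 * t - 3 ∧ qc t s k = (s + 1, pc t k) ∧
      qc t s (k + 1) = (s + 1, pc t (k + 1)) ∧
      (qp t (k + 1) : ℤ) - qp t k = (pp t (k + 1) : ℤ) - pp t k) := by
  rcases q_cases t ht s k (by omega) with ⟨a1, a2, a3⟩ | ⟨a1, a2, a3⟩ |
      ⟨a0, a1, a2, a3, a4, a5, a6⟩ <;>
    rcases q_cases t ht s (k + 1) (by omega) with ⟨b1, b2, b3⟩ | ⟨b1, b2, b3⟩ |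
      ⟨b0, b1, b2, b3, b4, b5, b6⟩
  · omega
  · left; exact ⟨by omega, a1, a2, b2, by omega⟩
  · right; left
    refine ⟨b0, a1, a2, ?_, by omega, by omega⟩
    rw [b3, a1, zero_add, pc_first t b0]
  · omega
  · omega
  · omega
  · omega
  · right; right; left
    have hk' : k = 2 * t - 2 := by omega
    refine ⟨a0, hk', ?_, b2, by omega, by omega⟩
    rw [a3, hk', pc_last t a0]
  · right; right; right
    exact ⟨a0, a1, by omega, a3, b3, by omega⟩

/-! ### finite facts on the end hubs -/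

theorem fA : ∀ s : Fin 6, (A s).1 ≠ s ∧ (A s).1 ≠ s + 1 ∧ (A s).1 ≠ s + 1 + 1 := by decide

theorem fB : ∀ s : Fin 6, (B s).1 ≠ s ∧ (B s).1 ≠ s + 1 ∧ (B s).1 ≠ s + 1 + 1 := by decide

theorem fAB : ∀ s s' : Fin 6, (A s = A s' → s = s') ∧ (B s = B s' → s = s') ∧ A s ≠ B s' := by
  decide

theorem f3 : ∀ (s s' : Fin 6) (e e' : Bool), ((s, e) = A s' → A s ≠ (s', e') ∧ B s ≠ (s', e')) ∧
    ((s, e) = B s' → A s ≠ (s', e') ∧ B s ≠ (s', e')) := by decide

theorem f1 : ∀ (s s' : Fin 6) (e : Bool), ((s, e) = A s' → A s ≠ B s' ∧ B s ≠ B s') ∧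
    ((s, e) = B s' → A s ≠ A s' ∧ B s ≠ A s') := by decide

theorem f2 : ∀ (s s' : Fin 6), (A s = (s' + 1, true) → B s' ≠ (s + 1, false)) ∧
    (A s = (s' + 1, false) → A s' ≠ (s + 1, false)) ∧
    (B s = (s' + 1, true) → B s' ≠ (s + 1, true)) := by decide

theorem f6 : ∀ s : Fin 6, s + 1 ≠ s ∧ s + 1 + 1 ≠ s := by decide

theorem f6' : ∀ s s' : Fin 6, s + 1 = s' + 1 → s = s' := by decide

theorem znz {t : ℕ} {a : ℤ} (h : (a : ZMod t) = 0) (h1 : a ≠ 0) (h2 : -(t : ℤ) < a)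
    (h3 : a < t) : False := by
  have h0 : (a : ZMod t) = ((0 : ℤ) : ZMod t) := by rw [h]; simp
  have := zcongr h0 h2 h3 (by omega) (by omega)
  omega

theorem q_inj (t : ℕ) (ht : 1 ≤ t) (s : Fin 6) (j j' : ℕ) (hj : j ≤ 2 * t - 1)
    (hj' : j' ≤ 2 * t - 1) (h1 : qc t s j = qc t s j')
    (h2 : ((qp t j : ℤ) : ZMod t) = ((qp t j' : ℤ) : ZMod t)) : j = j' := by
  rcases q_cases t ht s j hj with ⟨a1, a2, a3⟩ | ⟨a1, a2, a3⟩ |
      ⟨a0, a1, a2, a3, a4, a5, a6⟩ <;>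
    rcases q_cases t ht s j' hj' with ⟨b1, b2, b3⟩ | ⟨b1, b2, b3⟩ |
      ⟨b0, b1, b2, b3, b4, b5, b6⟩
  · omega
  · rw [a2, b2] at h1; exact absurd h1 (fAB s s).2.2
  · rw [a2, b3] at h1; exact absurd (congrArg Prod.fst h1) (fA s).2.1
  · rw [a2, b2] at h1; exact absurd h1.symm (fAB s s).2.2
  · omega
  · rw [a2, b3] at h1; exact absurd (congrArg Prod.fst h1) (fB s).2.1
  · rw [a3, b2] at h1; exact absurd (congrArg Prod.fst h1).symm (fA s).2.1
  · rw [a3, b2] at h1; exact absurd (congrArg Prod.fst h1).symm (fB s).2.1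
  · rw [a3, b3] at h1
    rw [a4, b4] at h2
    have h3 := zcongr h2 (by omega) (by omega) (by omega) (by omega)
    exact inj_path t j j' a0 a1 a2 b1 b2 (congrArg Prod.snd h1) (by omega)

/-- forward spoke, forward segment -/
theorem ff_sp (t : ℕ) (ht : 1 ≤ t) (s s' : Fin 6) (e : Bool) (j k : ℕ) (hj : j ≤ 2 * t - 1)
    (hk : k + 1 ≤ 2 * t - 1) (h1 : (s, e) = qc t s' k) (h2 : qc t s j = qc t s' (k + 1))
    (h3 : ((qp t j : ℤ) : ZMod t) = (((qp t (k + 1) : ℤ) - qp t k : ℤ) : ZMod t)) : False := by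
  rcases q_cases t ht s j hj with ⟨a1, a2, a3⟩ | ⟨a1, a2, a3⟩ |
      ⟨a0, a1, a2, a3, a4, a5, a6⟩ <;>
    rcases seg_cases t ht s' k hk with ⟨b0, b1, b2, b3, b4⟩ | ⟨b0, b1, b2, b3, b4, b5⟩ |
      ⟨b0, b1, b2, b3, b4, b5⟩ | ⟨b0, b1, b1', b2, b3, b4⟩
  · rw [b2] at h1; rw [a2, b3] at h2; exact ((f1 s s' e).1 h1).1 h2
  · rw [a3] at h3; exact znz (h3.symm.trans (by simp)) (by omega) (by omega) (by omega)
  · rw [a3] at h3; exact znz (h3.symm.trans (by simp)) (by omega) (by omega) (by omega)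
  · rw [b2] at h1; rw [a2, b3] at h2
    have e1 : s = s' + 1 := congrArg Prod.fst h1
    have e2 : (A s).1 = s' + 1 := congrArg Prod.fst h2
    exact (fA s).1 (e2.trans e1.symm)
  · rw [b2] at h1; rw [a2, b3] at h2; exact ((f1 s s' e).1 h1).2 h2
  · rw [a3] at h3; exact znz (h3.symm.trans (by simp)) (by omega) (by omega) (by omega)
  · rw [a3] at h3; exact znz (h3.symm.trans (by simp)) (by omega) (by omega) (by omega)
  · rw [b2] at h1; rw [a2, b3] at h2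
    have e1 : s = s' + 1 := congrArg Prod.fst h1
    have e2 : (B s).1 = s' + 1 := congrArg Prod.fst h2
    exact (fB s).1 (e2.trans e1.symm)
  · omega
  · rw [b2] at h1; rw [a3, b3] at h2
    have e1 : s = (A s').1 := congrArg Prod.fst h1
    have e2 : s + 1 = s' + 1 := congrArg Prod.fst h2
    have e3 := f6' _ _ e2
    subst e3
    exact (fA s).1 e1.symm
  · rw [b2] at h1; rw [a3, b3] at h2
    have e1 : s = s' + 1 := congrArg Prod.fst h1
    have e2 : s + 1 = (B s').1 := congrArg Prod.fst h2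
    subst e1
    exact (fB s').2.2 e2.symm
  · rw [b2] at h1; rw [a3, b3] at h2
    have e1 : s = s' + 1 := congrArg Prod.fst h1
    have e2 : s + 1 = s' + 1 := congrArg Prod.fst h2
    exact (f6 s).1 (e2.trans e1.symm)

/-- forward segment, forward segment -/
theorem ff_pp (t : ℕ) (ht : 1 ≤ t) (s s' : Fin 6) (k k' : ℕ) (hk : k + 1 ≤ 2 * t - 1)
    (hk' : k' + 1 ≤ 2 * t - 1) (h1 : qc t s k = qc t s' k') (h2 : qc t s (k + 1) = qc t s' (k' + 1))
    (h3 : (((qp t (k + 1) : ℤ) - qp t k : ℤ) : ZMod t) =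
      (((qp t (k' + 1) : ℤ) - qp t k' : ℤ) : ZMod t)) : s = s' ∧ k = k' := by
  rcases seg_cases t ht s k hk with ⟨a0, a1, a2, a3, a4⟩ | ⟨a0, a1, a2, a3, a4, a5⟩ |
      ⟨a0, a1, a2, a3, a4, a5⟩ | ⟨a0, a1, a1', a2, a3, a4⟩ <;>
    rcases seg_cases t ht s' k' hk' with ⟨b0, b1, b2, b3, b4⟩ | ⟨b0, b1, b2, b3, b4, b5⟩ |
      ⟨b0, b1, b2, b3, b4, b5⟩ | ⟨b0, b1, b1', b2, b3, b4⟩ <;>
    rw [a2, b2] at h1 <;> rw [a3, b3] at h2
  · exact ⟨(fAB s s').1 h1, by omega⟩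
  · omega
  · omega
  · omega
  · omega
  · exact ⟨(fAB s s').1 h1, by omega⟩
  · exact absurd h2.symm ((f2 s s').1 h1)
  · have e2 : s + 1 = s' + 1 := congrArg Prod.fst h2
    have e3 := f6' _ _ e2
    subst e3
    exact absurd (congrArg Prod.fst h1) (fA s).2.1
  · omega
  · exact absurd h2 ((f2 s' s).1 h1.symm)
  · exact ⟨(fAB s s').2.1 h2, by omega⟩
  · have e2 : s + 1 = s' + 1 := congrArg Prod.fst h1
    have e3 := f6' _ _ e2
    subst e3
    exact absurd (congrArg Prod.fst h2) (fB s).2.1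
  · omega
  · have e2 : s + 1 = s' + 1 := congrArg Prod.fst h2
    have e3 := f6' _ _ e2
    subst e3
    exact absurd (congrArg Prod.fst h1).symm (fA s).2.1
  · have e2 : s + 1 = s' + 1 := congrArg Prod.fst h1
    have e3 := f6' _ _ e2
    subst e3
    exact absurd (congrArg Prod.fst h2).symm (fB s).2.1
  · have e2 : s + 1 = s' + 1 := congrArg Prod.fst h1
    have e3 := f6' _ _ e2
    subst e3
    rw [a4, b4] at h3
    exact ⟨rfl, edge_inj t k k' a0 a1 a1' b1 b1' (congrArg Prod.snd h1) (congrArg Prod.snd h2) h3⟩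

/-- forward spoke, backward spoke -/
theorem fr_ss (t : ℕ) (ht : 1 ≤ t) (s s' : Fin 6) (e e' : Bool) (j j' : ℕ) (hj : j ≤ 2 * t - 1)
    (hj' : j' ≤ 2 * t - 1) (h1 : (s, e) = qc t s' j') (h2 : qc t s j = (s', e'))
    (h3 : ((qp t j : ℤ) : ZMod t) = ((-(qp t j' : ℤ) : ℤ) : ZMod t)) : False := by
  rcases q_cases t ht s j hj with ⟨a1, a2, a3⟩ | ⟨a1, a2, a3⟩ |
      ⟨a0, a1, a2, a3, a4, a5, a6⟩ <;>
    rcases q_cases t ht s' j' hj' with ⟨b1, b2, b3⟩ | ⟨b1, b2, b3⟩ |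
      ⟨b0, b1, b2, b3, b4, b5, b6⟩
  · rw [b2] at h1; rw [a2] at h2; exact ((f3 s s' e e').1 h1).1 h2
  · rw [b2] at h1; rw [a2] at h2; exact ((f3 s s' e e').2 h1).1 h2
  · rw [a3] at h3; exact znz (h3.symm.trans (by simp)) (by omega) (by omega) (by omega)
  · rw [b2] at h1; rw [a2] at h2; exact ((f3 s s' e e').1 h1).2 h2
  · rw [b2] at h1; rw [a2] at h2; exact ((f3 s s' e e').2 h1).2 h2
  · rw [a3] at h3; exact znz (h3.symm.trans (by simp)) (by omega) (by omega) (by omega)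
  · rw [b3] at h3; exact znz (h3.trans (by simp)) (by omega) (by omega) (by omega)
  · rw [b3] at h3; exact znz (h3.trans (by simp)) (by omega) (by omega) (by omega)
  · rw [b3] at h1; rw [a3] at h2
    have e1 : s = s' + 1 := congrArg Prod.fst h1
    have e2 : s + 1 = s' := congrArg Prod.fst h2
    subst e2
    exact (f6 s).2 e1.symm

/-- forward spoke, backward segment -/
theorem fr_sp (t : ℕ) (ht : 1 ≤ t) (s s' : Fin 6) (e : Bool) (j k : ℕ) (hj : j ≤ 2 * t - 1)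
    (hk : k + 1 ≤ 2 * t - 1) (h1 : (s, e) = qc t s' (k + 1)) (h2 : qc t s j = qc t s' k)
    (h3 : ((qp t j : ℤ) : ZMod t) = ((-((qp t (k + 1) : ℤ) - qp t k) : ℤ) : ZMod t)) : False := by
  rcases q_cases t ht s j hj with ⟨a1, a2, a3⟩ | ⟨a1, a2, a3⟩ |
      ⟨a0, a1, a2, a3, a4, a5, a6⟩ <;>
    rcases seg_cases t ht s' k hk with ⟨b0, b1, b2, b3, b4⟩ | ⟨b0, b1, b2, b3, b4, b5⟩ |
      ⟨b0, b1, b2, b3, b4, b5⟩ | ⟨b0, b1, b1', b2, b3, b4⟩
  · rw [b3] at h1; rw [a2, b2] at h2; exact ((f1 s s' e).2 h1).1 h2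
  · rw [a3] at h3; exact znz (h3.symm.trans (by simp)) (by omega) (by omega) (by omega)
  · rw [a3] at h3; exact znz (h3.symm.trans (by simp)) (by omega) (by omega) (by omega)
  · rw [b3] at h1; rw [a2, b2] at h2
    have e1 : s = s' + 1 := congrArg Prod.fst h1
    have e2 : (A s).1 = s' + 1 := congrArg Prod.fst h2
    exact (fA s).1 (e2.trans e1.symm)
  · rw [b3] at h1; rw [a2, b2] at h2; exact ((f1 s s' e).2 h1).2 h2
  · rw [a3] at h3; exact znz (h3.symm.trans (by simp)) (by omega) (by omega) (by omega)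
  · rw [a3] at h3; exact znz (h3.symm.trans (by simp)) (by omega) (by omega) (by omega)
  · rw [b3] at h1; rw [a2, b2] at h2
    have e1 : s = s' + 1 := congrArg Prod.fst h1
    have e2 : (B s).1 = s' + 1 := congrArg Prod.fst h2
    exact (fB s).1 (e2.trans e1.symm)
  · omega
  · rw [b3] at h1; rw [a3, b2] at h2
    have e1 : s = s' + 1 := congrArg Prod.fst h1
    have e2 : s + 1 = (A s').1 := congrArg Prod.fst h2
    subst e1
    exact (fA s').2.2 e2.symm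
  · rw [b3] at h1; rw [a3, b2] at h2
    have e1 : s = (B s').1 := congrArg Prod.fst h1
    have e2 : s + 1 = s' + 1 := congrArg Prod.fst h2
    have e3 := f6' _ _ e2
    subst e3
    exact (fB s).1 e1.symm
  · rw [b3] at h1; rw [a3, b2] at h2
    have e1 : s = s' + 1 := congrArg Prod.fst h1
    have e2 : s + 1 = s' + 1 := congrArg Prod.fst h2
    exact (f6 s).1 (e2.trans e1.symm)

/-- forward segment, backward segment -/
theorem fr_pp (t : ℕ) (ht : 1 ≤ t) (s s' : Fin 6) (k k' : ℕ) (hk : k + 1 ≤ 2 * t - 1)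
    (hk' : k' + 1 ≤ 2 * t - 1) (h1 : qc t s k = qc t s' (k' + 1)) (h2 : qc t s (k + 1) = qc t s' k')
    (h3 : (((qp t (k + 1) : ℤ) - qp t k : ℤ) : ZMod t) =
      ((-((qp t (k' + 1) : ℤ) - qp t k') : ℤ) : ZMod t)) : False := by
  rcases seg_cases t ht s k hk with ⟨a0, a1, a2, a3, a4⟩ | ⟨a0, a1, a2, a3, a4, a5⟩ |
      ⟨a0, a1, a2, a3, a4, a5⟩ | ⟨a0, a1, a1', a2, a3, a4⟩ <;>
    rcases seg_cases t ht s' k' hk' with ⟨b0, b1, b2, b3, b4⟩ | ⟨b0, b1, b2, b3, b4, b5⟩ |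
      ⟨b0, b1, b2, b3, b4, b5⟩ | ⟨b0, b1, b1', b2, b3, b4⟩ <;>
    rw [a2, b3] at h1 <;> rw [a3, b2] at h2
  · exact (fAB s s').2.2 h1
  · omega
  · omega
  · omega
  · omega
  · exact (f2 s s').2.1 h1 h2.symm
  · exact absurd (congrArg Prod.snd h2) (by simp)
  · have e2 : s + 1 = s' + 1 := congrArg Prod.fst h2
    have e3 := f6' _ _ e2
    subst e3
    exact absurd (congrArg Prod.fst h1) (fA s).2.1
  · omega
  · exact absurd (congrArg Prod.snd h1) (by simp)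
  · exact (f2 s s').2.2 h2 h1.symm
  · have e2 : s + 1 = s' + 1 := congrArg Prod.fst h1
    have e3 := f6' _ _ e2
    subst e3
    exact absurd (congrArg Prod.fst h2) (fB s).2.1
  · omega
  · have e2 : s + 1 = s' + 1 := congrArg Prod.fst h1
    have e3 := f6' _ _ e2
    subst e3
    exact absurd (congrArg Prod.fst h2).symm (fA s).2.1
  · have e2 : s + 1 = s' + 1 := congrArg Prod.fst h2
    have e3 := f6' _ _ e2
    subst e3
    exact absurd (congrArg Prod.fst h1).symm (fB s).2.1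
  · have e2 : s + 1 = s' + 1 := congrArg Prod.fst h1
    have e3 := f6' _ _ e2
    subst e3
    rw [a4, b4] at h3
    exact edge_ne t k k' a0 a1 a1' b1 b1' (congrArg Prod.snd h1) (congrArg Prod.snd h2) h3

end Pool.Agent.R4.Thick
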