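import Mathlib

/-!
# A rainbow Hamiltonian path on the elements `(ε, x)`, `ε ∈ {0, 1}`, `x ∈ {1, ..., t - 1}`

`pc t k`, `pp t k` (`1 ≤ k ≤ 2 t - 2`) are the side and the position of the `k`-th vertex.
-/

set_option autoImplicit false

namespace Pool.Agent.R4.Thick

/-- the zigzag from the outside to the middle of `1, ..., K + 1` -/
def zz (K j : ℕ) : ℕ := if j % 2 = 0 then K + 1 - j / 2 else j / 2 + 1

/-- side of the `k`-th vertex -/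
def pc (t k : ℕ) : Bool :=
  if k ≤ (t - 1) / 2 + 1 then false
  else if 2 * t - 2 - (t - 1) / 2 ≤ k then true
  else decide ((k - ((t - 1) / 2 + 1)) % 2 = 1)

/-- position of the `k`-th vertex -/
def pp (t k : ℕ) : ℕ :=
  if k ≤ (t - 1) / 2 + 1 then zz ((t - 1) / 2) ((t - 1) / 2 + 1 - k)
  else if 2 * t - 2 - (t - 1) / 2 ≤ k then zz ((t - 1) / 2) (k - (2 * t - 2 - (t - 1) / 2))
  else if (k - ((t - 1) / 2 + 1)) % 2 = 1 then t - (k - ((t - 1) / 2 + 1) + 1) / 2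
  else (t - 1) / 2 + 1 + (k - ((t - 1) / 2 + 1)) / 2

/-- the three zones of the path, with the formulas -/
theorem pc_pp (t k : ℕ) (ht : 2 ≤ t) (h1 : 1 ≤ k) (h2 : k ≤ 2 * t - 2) :
    ∃ K : ℕ, K = (t - 1) / 2 ∧
    ((k ≤ K + 1 ∧ (K + 1 - k) % 2 = 0 ∧ pc t k = false ∧ pp t k = K + 1 - (K + 1 - k) / 2) ∨
     (k ≤ K + 1 ∧ (K + 1 - k) % 2 = 1 ∧ pc t k = false ∧ pp t k = (K + 1 - k) / 2 + 1) ∨
     (2 * t - 2 - K ≤ k ∧ (k - (2 * t - 2 - K)) % 2 = 0 ∧ pc t k = true ∧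
        pp t k = K + 1 - (k - (2 * t - 2 - K)) / 2) ∨
     (2 * t - 2 - K ≤ k ∧ (k - (2 * t - 2 - K)) % 2 = 1 ∧ pc t k = true ∧
        pp t k = (k - (2 * t - 2 - K)) / 2 + 1) ∨
     (K + 2 ≤ k ∧ k + 1 ≤ 2 * t - 2 - K ∧ (k - (K + 1)) % 2 = 1 ∧ pc t k = true ∧
        pp t k = t - (k - (K + 1) + 1) / 2) ∨
     (K + 2 ≤ k ∧ k + 1 ≤ 2 * t - 2 - K ∧ (k - (K + 1)) % 2 = 0 ∧ pc t k = false ∧
        pp t k = K + 1 + (k - (K + 1)) / 2)) := by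
  refine ⟨(t - 1) / 2, rfl, ?_⟩
  unfold pc pp zz
  generalize hK : (t - 1) / 2 = K
  by_cases a1 : k ≤ K + 1
  · rw [if_pos a1, if_pos a1]
    rcases Nat.mod_two_eq_zero_or_one (K + 1 - k) with h | h
    · rw [if_pos h]; exact Or.inl ⟨a1, h, rfl, rfl⟩
    · rw [if_neg (by omega)]; exact Or.inr (Or.inl ⟨a1, h, rfl, rfl⟩)
  · rw [if_neg a1, if_neg a1]
    by_cases a2 : 2 * t - 2 - K ≤ k
    · rw [if_pos a2, if_pos a2]
      rcases Nat.mod_two_eq_zero_or_one (k - (2 * t - 2 - K)) with h | h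
      · rw [if_pos h]; exact Or.inr (Or.inr (Or.inl ⟨a2, h, rfl, rfl⟩))
      · rw [if_neg (by omega)]; exact Or.inr (Or.inr (Or.inr (Or.inl ⟨a2, h, rfl, rfl⟩)))
    · rw [if_neg a2, if_neg a2]
      rcases Nat.mod_two_eq_zero_or_one (k - (K + 1)) with h | h
      · rw [if_neg (by omega)]
        exact Or.inr (Or.inr (Or.inr (Or.inr (Or.inr ⟨by omega, by omega, h, by simp [h], rfl⟩))))
      · rw [if_pos h]
        exact Or.inr (Or.inr (Or.inr (Or.inr (Or.inl ⟨by omega, by omega, h, by simp [h], rfl⟩))))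

theorem pp_range (t k : ℕ) (ht : 2 ≤ t) (h1 : 1 ≤ k) (h2 : k ≤ 2 * t - 2) :
    1 ≤ pp t k ∧ pp t k < t := by
  obtain ⟨K, hK, h⟩ := pc_pp t k ht h1 h2
  rcases h with h | h | h | h | h | h <;> omega

theorem pc_first (t : ℕ) (ht : 2 ≤ t) : pc t 1 = false := by
  obtain ⟨K, hK, h⟩ := pc_pp t 1 ht le_rfl (by omega)
  rcases h with ⟨_, _, h, _⟩ | ⟨_, _, h, _⟩ | ⟨h, _⟩ | ⟨h, _⟩ | ⟨h, _⟩ | ⟨h, _⟩
  · exact h
  · exact h
  all_goals omega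

theorem pc_last (t : ℕ) (ht : 2 ≤ t) : pc t (2 * t - 2) = true := by
  obtain ⟨K, hK, h⟩ := pc_pp t (2 * t - 2) ht (by omega) le_rfl
  rcases h with ⟨h, _⟩ | ⟨h, _⟩ | ⟨_, _, h, _⟩ | ⟨_, _, h, _⟩ | ⟨_, _, _, h, _⟩ | ⟨h, h', h'', _⟩
  · omega
  · omega
  · exact h
  · exact h
  · exact h
  · omega

theorem inj_path (t k k' : ℕ) (ht : 2 ≤ t) (h1 : 1 ≤ k) (h2 : k ≤ 2 * t - 2) (h1' : 1 ≤ k')
    (h2' : k' ≤ 2 * t - 2) (hc : pc t k = pc t k') (hp : pp t k = pp t k') : k = k' := by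
  obtain ⟨K, hK, h⟩ := pc_pp t k ht h1 h2
  obtain ⟨K', hK', h'⟩ := pc_pp t k' ht h1' h2'
  have hKK : K' = K := by rw [hK, hK']
  subst hKK
  rcases h with ⟨a1, a2, a3, a4⟩ | ⟨a1, a2, a3, a4⟩ | ⟨a1, a2, a3, a4⟩ | ⟨a1, a2, a3, a4⟩ |
    ⟨a0, a1, a2, a3, a4⟩ | ⟨a0, a1, a2, a3, a4⟩ <;>
  rcases h' with ⟨b1, b2, b3, b4⟩ | ⟨b1, b2, b3, b4⟩ | ⟨b1, b2, b3, b4⟩ | ⟨b1, b2, b3, b4⟩ |
    ⟨b0, b1, b2, b3, b4⟩ | ⟨b0, b1, b2, b3, b4⟩ <;>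
  first
  | (exfalso; rw [a3, b3] at hc; exact absurd hc (by decide))
  | omega

theorem surj_path (t : ℕ) (ht : 2 ≤ t) (b : Bool) (x : ℕ) (h1 : 1 ≤ x) (h2 : x < t) :
    ∃ k, 1 ≤ k ∧ k ≤ 2 * t - 2 ∧ pc t k = b ∧ pp t k = x := by
  obtain ⟨K, hK⟩ : ∃ K, K = (t - 1) / 2 := ⟨_, rfl⟩
  cases b with
  | false =>
    by_cases hx : x ≤ K + 1
    · by_cases hy : 2 * (K + 1 - x) ≤ K
      · refine ⟨K + 1 - 2 * (K + 1 - x), by omega, by omega, ?_⟩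
        obtain ⟨K', hK', h⟩ := pc_pp t (K + 1 - 2 * (K + 1 - x)) ht (by omega) (by omega)
        have hKK : K' = K := by rw [hK, hK']
        subst hKK
        rcases h with ⟨a1, a2, a3, a4⟩ | ⟨a1, a2, a3, a4⟩ | ⟨a1, a2, a3, a4⟩ | ⟨a1, a2, a3, a4⟩ |
          ⟨a0, a1, a2, a3, a4⟩ | ⟨a0, a1, a2, a3, a4⟩ <;>
        first
        | (exact ⟨a3, by omega⟩)
        | omega
      · refine ⟨K + 1 - (2 * x - 1), by omega, by omega, ?_⟩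
        obtain ⟨K', hK', h⟩ := pc_pp t (K + 1 - (2 * x - 1)) ht (by omega) (by omega)
        have hKK : K' = K := by rw [hK, hK']
        subst hKK
        rcases h with ⟨a1, a2, a3, a4⟩ | ⟨a1, a2, a3, a4⟩ | ⟨a1, a2, a3, a4⟩ | ⟨a1, a2, a3, a4⟩ |
          ⟨a0, a1, a2, a3, a4⟩ | ⟨a0, a1, a2, a3, a4⟩ <;>
        first
        | (exact ⟨a3, by omega⟩)
        | omega
    · refine ⟨K + 1 + 2 * (x - K - 1), by omega, by omega, ?_⟩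
      obtain ⟨K', hK', h⟩ := pc_pp t (K + 1 + 2 * (x - K - 1)) ht (by omega) (by omega)
      have hKK : K' = K := by rw [hK, hK']
      subst hKK
      rcases h with ⟨a1, a2, a3, a4⟩ | ⟨a1, a2, a3, a4⟩ | ⟨a1, a2, a3, a4⟩ | ⟨a1, a2, a3, a4⟩ |
        ⟨a0, a1, a2, a3, a4⟩ | ⟨a0, a1, a2, a3, a4⟩ <;>
      first
      | (exact ⟨a3, by omega⟩)
      | omega
  | true =>
    by_cases hx : x ≤ K + 1
    · by_cases hy : 2 * (K + 1 - x) ≤ K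
      · refine ⟨2 * t - 2 - K + 2 * (K + 1 - x), by omega, by omega, ?_⟩
        obtain ⟨K', hK', h⟩ := pc_pp t (2 * t - 2 - K + 2 * (K + 1 - x)) ht (by omega) (by omega)
        have hKK : K' = K := by rw [hK, hK']
        subst hKK
        rcases h with ⟨a1, a2, a3, a4⟩ | ⟨a1, a2, a3, a4⟩ | ⟨a1, a2, a3, a4⟩ | ⟨a1, a2, a3, a4⟩ |
          ⟨a0, a1, a2, a3, a4⟩ | ⟨a0, a1, a2, a3, a4⟩ <;>
        first
        | (exact ⟨a3, by omega⟩)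
        | omega
      · refine ⟨2 * t - 2 - K + (2 * x - 1), by omega, by omega, ?_⟩
        obtain ⟨K', hK', h⟩ := pc_pp t (2 * t - 2 - K + (2 * x - 1)) ht (by omega) (by omega)
        have hKK : K' = K := by rw [hK, hK']
        subst hKK
        rcases h with ⟨a1, a2, a3, a4⟩ | ⟨a1, a2, a3, a4⟩ | ⟨a1, a2, a3, a4⟩ | ⟨a1, a2, a3, a4⟩ |
          ⟨a0, a1, a2, a3, a4⟩ | ⟨a0, a1, a2, a3, a4⟩ <;>
        first
        | (exact ⟨a3, by omega⟩)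
        | omega
    · refine ⟨K + 2 + 2 * (t - 1 - x), by omega, by omega, ?_⟩
      obtain ⟨K', hK', h⟩ := pc_pp t (K + 2 + 2 * (t - 1 - x)) ht (by omega) (by omega)
      have hKK : K' = K := by rw [hK, hK']
      subst hKK
      rcases h with ⟨a1, a2, a3, a4⟩ | ⟨a1, a2, a3, a4⟩ | ⟨a1, a2, a3, a4⟩ | ⟨a1, a2, a3, a4⟩ |
        ⟨a0, a1, a2, a3, a4⟩ | ⟨a0, a1, a2, a3, a4⟩ <;>
      first
      | (exact ⟨a3, by omega⟩)
      | omega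

/-- the differences along the path -/
theorem edge_path (t k : ℕ) (ht : 2 ≤ t) (h1 : 1 ≤ k) (h2 : k ≤ 2 * t - 3) :
    ∃ K : ℕ, K = (t - 1) / 2 ∧
    ((k ≤ K ∧ pc t k = false ∧ pc t (k + 1) = false ∧
        ((K - k) % 2 = 0 ∧ (pp t (k + 1) : ℤ) - pp t k = k ∨
         (K - k) % 2 = 1 ∧ (pp t (k + 1) : ℤ) - pp t k = -k)) ∨
     (2 * t - 2 - K ≤ k ∧ pc t k = true ∧ pc t (k + 1) = true ∧
        ((k - (2 * t - 2 - K)) % 2 = 0 ∧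
            (pp t (k + 1) : ℤ) - pp t k = -(2 * t - 2 - k : ℤ) ∨
         (k - (2 * t - 2 - K)) % 2 = 1 ∧
            (pp t (k + 1) : ℤ) - pp t k = (2 * t - 2 - k : ℤ))) ∨
     (K + 1 ≤ k ∧ k + 1 ≤ 2 * t - 2 - K ∧ (k - (K + 1)) % 2 = 0 ∧
        pc t k = false ∧ pc t (k + 1) = true ∧
        (pp t (k + 1) : ℤ) - pp t k = (t : ℤ) - 1 - k) ∨
     (K + 1 ≤ k ∧ k + 1 ≤ 2 * t - 2 - K ∧ (k - (K + 1)) % 2 = 1 ∧
        pc t k = true ∧ pc t (k + 1) = false ∧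
        (pp t (k + 1) : ℤ) - pp t k = -((t : ℤ) - 1 - k))) := by
  obtain ⟨K, hK, h⟩ := pc_pp t k ht h1 (by omega)
  obtain ⟨K', hK', h'⟩ := pc_pp t (k + 1) ht (by omega) (by omega)
  have hKK : K' = K := by rw [hK, hK']
  subst hKK
  refine ⟨K', hK, ?_⟩
  rcases h with ⟨a1, a2, a3, a4⟩ | ⟨a1, a2, a3, a4⟩ | ⟨a1, a2, a3, a4⟩ | ⟨a1, a2, a3, a4⟩ |
    ⟨a0, a1, a2, a3, a4⟩ | ⟨a0, a1, a2, a3, a4⟩ <;>
  rcases h' with ⟨b1, b2, b3, b4⟩ | ⟨b1, b2, b3, b4⟩ | ⟨b1, b2, b3, b4⟩ | ⟨b1, b2, b3, b4⟩ |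
    ⟨b0, b1, b2, b3, b4⟩ | ⟨b0, b1, b2, b3, b4⟩ <;>
  first
  | (exfalso; omega)
  | (exact Or.inl ⟨by omega, a3, b3, by omega⟩)
  | (exact Or.inr (Or.inl ⟨by omega, a3, b3, by omega⟩))
  | (exact Or.inr (Or.inr (Or.inl ⟨by omega, by omega, by omega, a3, b3, by omega⟩)))
  | (exact Or.inr (Or.inr (Or.inr ⟨by omega, by omega, by omega, a3, b3, by omega⟩)))

/-- congruent small integers -/
theorem zcongr {t : ℕ} {a b : ℤ} (h : (a : ZMod t) = (b : ZMod t)) (h1 : -(t : ℤ) < a) (h2 : a < t)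
    (h3 : -(t : ℤ) < b) (h4 : b < t) : a = b ∨ a = b + t ∨ b = a + t := by
  have h5 := (ZMod.intCast_eq_intCast_iff_dvd_sub a b t).1 h
  obtain ⟨z, hz⟩ := h5
  have hz1 : z < 2 := by
    by_contra hh
    push Not at hh
    nlinarith
  have hz2 : -2 < z := by
    by_contra hh
    push Not at hh
    nlinarith
  have hz3 : z = 0 ∨ z = 1 ∨ z = -1 := by omega
  rcases hz3 with rfl | rfl | rfl
  · left; linarith
  · right; right; linarith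
  · right; left; linarith

theorem edge_inj (t k k' : ℕ) (ht : 2 ≤ t) (h1 : 1 ≤ k) (h2 : k ≤ 2 * t - 3) (h1' : 1 ≤ k')
    (h2' : k' ≤ 2 * t - 3) (hc : pc t k = pc t k') (hc' : pc t (k + 1) = pc t (k' + 1))
    (hd : (((pp t (k + 1) : ℤ) - pp t k : ℤ) : ZMod t) =
      (((pp t (k' + 1) : ℤ) - pp t k' : ℤ) : ZMod t)) : k = k' := by
  obtain ⟨K, hK, h⟩ := edge_path t k ht h1 h2
  obtain ⟨K', hK', h'⟩ := edge_path t k' ht h1' h2'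
  have hKK : K' = K := by rw [hK, hK']
  subst hKK
  have r1 := pp_range t k ht h1 (by omega)
  have r2 := pp_range t (k + 1) ht (by omega) (by omega)
  have r3 := pp_range t k' ht h1' (by omega)
  have r4 := pp_range t (k' + 1) ht (by omega) (by omega)
  have hz := zcongr hd (by omega) (by omega) (by omega) (by omega)
  rcases h with ⟨a1, a2, a3, a4⟩ | ⟨a1, a2, a3, a4⟩ | ⟨a0, a1, a5, a2, a3, a4⟩ |
      ⟨a0, a1, a5, a2, a3, a4⟩ <;>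
    rcases h' with ⟨b1, b2, b3, b4⟩ | ⟨b1, b2, b3, b4⟩ | ⟨b0, b1, b5, b2, b3, b4⟩ |
      ⟨b0, b1, b5, b2, b3, b4⟩ <;>
  first
  | (exfalso; rw [a2, b2] at hc; exact absurd hc (by decide))
  | (exfalso; rw [a3, b3] at hc'; exact absurd hc' (by decide))
  | omega

theorem edge_ne (t k k' : ℕ) (ht : 2 ≤ t) (h1 : 1 ≤ k) (h2 : k ≤ 2 * t - 3) (h1' : 1 ≤ k')
    (h2' : k' ≤ 2 * t - 3) (hc : pc t k = pc t (k' + 1)) (hc' : pc t (k + 1) = pc t k')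
    (hd : (((pp t (k + 1) : ℤ) - pp t k : ℤ) : ZMod t) =
      ((-((pp t (k' + 1) : ℤ) - pp t k') : ℤ) : ZMod t)) : False := by
  obtain ⟨K, hK, h⟩ := edge_path t k ht h1 h2
  obtain ⟨K', hK', h'⟩ := edge_path t k' ht h1' h2'
  have hKK : K' = K := by rw [hK, hK']
  subst hKK
  have r1 := pp_range t k ht h1 (by omega)
  have r2 := pp_range t (k + 1) ht (by omega) (by omega)
  have r3 := pp_range t k' ht h1' (by omega)
  have r4 := pp_range t (k' + 1) ht (by omega) (by omega)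
  have hz := zcongr hd (by omega) (by omega) (by omega) (by omega)
  rcases h with ⟨a1, a2, a3, a4⟩ | ⟨a1, a2, a3, a4⟩ | ⟨a0, a1, a5, a2, a3, a4⟩ |
      ⟨a0, a1, a5, a2, a3, a4⟩ <;>
    rcases h' with ⟨b1, b2, b3, b4⟩ | ⟨b1, b2, b3, b4⟩ | ⟨b0, b1, b5, b2, b3, b4⟩ |
      ⟨b0, b1, b5, b2, b3, b4⟩ <;>
  first
  | (rw [a2, b3] at hc; exact absurd hc (by decide))
  | (rw [a3, b2] at hc'; exact absurd hc' (by decide))
  | omega

end Pool.Agent.R4.Thick
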