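import Pool.Agent.R4.Thick.Keys
import Pool.Agent.H671R2.OOF.Euler

/-!
# The base triangulation on `12 t` vertices
-/

set_option autoImplicit false

namespace Pool.Agent.R4.Thick

open Pool.Agent.H671R2.OOF

/-- colours -/
abbrev Col : Type := Fin 6 × Bool

/-- vertices: a colour and a position -/
abbrev Vt (t : ℕ) : Type := Col × ZMod t

/-- directed edges: the spokes `(s, e, j, f)` and the segments `(s, k, f)`; `f = true` means
backwards -/
abbrev Dt (t : ℕ) : Type := (Fin 6 × Bool × Fin (2 * t) × Bool) ⊕ (Fin 6 × Fin (2 * t - 1) × Bool)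

/-- colour of the tail -/
def tc (t : ℕ) : Dt t → Col
  | Sum.inl (s, e, _, false) => (s, e)
  | Sum.inl (s, _, j, true) => qc t s j
  | Sum.inr (s, k, false) => qc t s k
  | Sum.inr (s, k, true) => qc t s (k + 1)

/-- colour of the head -/
def hc (t : ℕ) : Dt t → Col
  | Sum.inl (s, _, j, false) => qc t s j
  | Sum.inl (s, e, _, true) => (s, e)
  | Sum.inr (s, k, false) => qc t s (k + 1)
  | Sum.inr (s, k, true) => qc t s k

/-- position of the tail -/
def tp (t : ℕ) : Dt t → ℕ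
  | Sum.inl (_, _, _, false) => 0
  | Sum.inl (_, _, j, true) => qp t j
  | Sum.inr (_, k, false) => qp t k
  | Sum.inr (_, k, true) => qp t (k + 1)

/-- position of the head -/
def hp (t : ℕ) : Dt t → ℕ
  | Sum.inl (_, _, j, false) => qp t j
  | Sum.inl (_, _, _, true) => 0
  | Sum.inr (_, k, false) => qp t (k + 1)
  | Sum.inr (_, k, true) => qp t k

/-- reversal -/
def rv (t : ℕ) : Dt t → Dt t
  | Sum.inl (s, e, j, f) => Sum.inl (s, e, j, !f)
  | Sum.inr (s, k, f) => Sum.inr (s, k, !f)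

theorem rv_rv (t : ℕ) (d : Dt t) : rv t (rv t d) = d := by
  rcases d with ⟨s, e, j, f⟩ | ⟨s, k, f⟩ <;> simp [rv]

theorem tc_rv (t : ℕ) (d : Dt t) : tc t (rv t d) = hc t d := by
  rcases d with ⟨s, e, j, f⟩ | ⟨s, k, f⟩ <;> cases f <;> rfl

theorem hc_rv (t : ℕ) (d : Dt t) : hc t (rv t d) = tc t d := by
  rcases d with ⟨s, e, j, f⟩ | ⟨s, k, f⟩ <;> cases f <;> rfl

theorem tp_rv (t : ℕ) (d : Dt t) : tp t (rv t d) = hp t d := by
  rcases d with ⟨s, e, j, f⟩ | ⟨s, k, f⟩ <;> cases f <;> rfl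

theorem hp_rv (t : ℕ) (d : Dt t) : hp t (rv t d) = tp t d := by
  rcases d with ⟨s, e, j, f⟩ | ⟨s, k, f⟩ <;> cases f <;> rfl

/-- equal keys, the first dart forward -/
theorem key_forward (t : ℕ) (ht : 1 ≤ t) (d d' : Dt t) (h1 : tc t d = tc t d')
    (h2 : hc t d = hc t d')
    (h3 : (((hp t d : ℤ) - tp t d : ℤ) : ZMod t) = (((hp t d' : ℤ) - tp t d' : ℤ) : ZMod t))
    (hf : (∃ s e j, d = Sum.inl (s, e, j, false)) ∨ ∃ s k, d = Sum.inr (s, k, false)) :
    d = d' := by
  rcases hf with ⟨s, e, j, rfl⟩ | ⟨s, k, rfl⟩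
  · rcases d' with ⟨s', e', j', f'⟩ | ⟨s', k', f'⟩ <;> cases f' <;>
      simp only [tc, hc, hp, tp] at h1 h2 h3
    · simp only [Prod.mk.injEq] at h1
      obtain ⟨rfl, rfl⟩ := h1
      have hj : (j : ℕ) = j' := q_inj t ht s j j' (by omega) (by omega) h2 (by simpa using h3)
      rw [Fin.ext hj]
    · exact (fr_ss t ht s s' e e' j j' (by omega) (by omega) h1 h2 (by simpa using h3)).elim
    · exact (ff_sp t ht s s' e j k' (by omega) (by omega) h1 h2 (by simpa using h3)).elim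
    · exact (fr_sp t ht s s' e j k' (by omega) (by omega) h1 h2 (by simpa using h3)).elim
  · rcases d' with ⟨s', e', j', f'⟩ | ⟨s', k', f'⟩ <;> cases f' <;>
      simp only [tc, hc, hp, tp] at h1 h2 h3
    · exact (ff_sp t ht s' s e' j' k (by omega) (by omega) h1.symm h2.symm
        (by simpa using h3.symm)).elim
    · refine (fr_sp t ht s' s e' j' k (by omega) (by omega) h2.symm h1.symm ?_).elim
      have h4 := congrArg (fun x => -x) h3
      simpa using h4.symm
    · obtain ⟨rfl, hk⟩ := ff_pp t ht s s' k k' (by omega) (by omega) h1 h2 h3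
      rw [Fin.ext hk]
    · exact (fr_pp t ht s s' k k' (by omega) (by omega) h1 h2 (by simpa using h3)).elim

/-- a dart is determined by its key -/
theorem key_inj (t : ℕ) (ht : 1 ≤ t) (d d' : Dt t) (h1 : tc t d = tc t d')
    (h2 : hc t d = hc t d')
    (h3 : (((hp t d : ℤ) - tp t d : ℤ) : ZMod t) = (((hp t d' : ℤ) - tp t d' : ℤ) : ZMod t)) :
    d = d' := by
  by_cases hf : (∃ s e j, d = Sum.inl (s, e, j, false)) ∨ ∃ s k, d = Sum.inr (s, k, false)
  · exact key_forward t ht d d' h1 h2 h3 hf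
  · have hf' : (∃ s e j, rv t d = Sum.inl (s, e, j, false)) ∨
        ∃ s k, rv t d = Sum.inr (s, k, false) := by
      rcases d with ⟨s, e, j, f⟩ | ⟨s, k, f⟩ <;> cases f
      · exact absurd (Or.inl ⟨s, e, j, rfl⟩) hf
      · exact Or.inl ⟨s, e, j, rfl⟩
      · exact absurd (Or.inr ⟨s, k, rfl⟩) hf
      · exact Or.inr ⟨s, k, rfl⟩
    have h4 : rv t d = rv t d' := by
      refine key_forward t ht (rv t d) (rv t d') ?_ ?_ ?_ hf'
      · rw [tc_rv, tc_rv, h2]
      · rw [hc_rv, hc_rv, h1]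
      · rw [hp_rv, tp_rv, hp_rv, tp_rv]
        have h5 := congrArg (fun x => -x) h3
        simpa using h5
    rw [← rv_rv t d, h4, rv_rv]

/-- the ends of a dart are different -/
theorem key_ne (t : ℕ) (ht : 1 ≤ t) (d : Dt t) (h1 : tc t d = hc t d)
    (h3 : (((hp t d : ℤ) - tp t d : ℤ) : ZMod t) = 0) : False := by
  have h4 : d = rv t d := by
    refine key_inj t ht d (rv t d) ?_ ?_ ?_
    · rw [tc_rv, h1]
    · rw [hc_rv, h1]
    · rw [hp_rv, tp_rv, h3]
      have h5 := congrArg (fun x => -x) h3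
      simpa using h5.symm
  rcases d with ⟨s, e, j, f⟩ | ⟨s, k, f⟩ <;> cases f <;> simp [rv] at h4

/-! ### the face permutation -/

/-- table of the eight triangles of hubs -/
def nx (x : Fin 6 × Fin 4) : Fin 6 × Fin 4 :=
  (![![(1, 2), (3, 1), (2, 0), (4, 1)],
     ![(3, 2), (0, 1), (4, 0), (5, 1)],
     ![(3, 0), (5, 3), (4, 2), (0, 3)],
     ![(0, 2), (1, 1), (5, 0), (2, 1)],
     ![(0, 0), (2, 3), (5, 2), (1, 3)],
     ![(1, 0), (4, 3), (2, 2), (3, 3)]] : Fin 6 → Fin 4 → Fin 6 × Fin 4) x.1 x.2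

theorem nx3 : ∀ x, nx (nx (nx x)) = x := by decide

/-- the dart of the outer side of a strip -/
def od (t : ℕ) (ht : 1 ≤ t) (x : Fin 6 × Fin 4) : Dt t :=
  if x.2 = 0 then Sum.inl (x.1, false, ⟨0, by omega⟩, true)
  else if x.2 = 1 then Sum.inl (x.1, false, ⟨2 * t - 1, by omega⟩, false)
  else if x.2 = 2 then Sum.inl (x.1, true, ⟨2 * t - 1, by omega⟩, true)
  else Sum.inl (x.1, true, ⟨0, by omega⟩, false)

/-- the next dart of the triangle -/
def ph (t : ℕ) (ht : 1 ≤ t) : Dt t → Dt t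
  | Sum.inl (s, false, j, false) =>
      if h : (j : ℕ) < 2 * t - 1 then Sum.inr (s, ⟨j, h⟩, false) else od t ht (nx (s, 1))
  | Sum.inl (s, false, j, true) =>
      if (j : ℕ) = 0 then od t ht (nx (s, 0))
      else Sum.inl (s, false, ⟨(j : ℕ) - 1, by omega⟩, false)
  | Sum.inl (s, true, j, false) =>
      if h : (j : ℕ) = 0 then od t ht (nx (s, 3)) else Sum.inr (s, ⟨(j : ℕ) - 1, by omega⟩, true)
  | Sum.inl (s, true, j, true) =>
      if h : (j : ℕ) < 2 * t - 1 then Sum.inl (s, true, ⟨(j : ℕ) + 1, by omega⟩, false)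
      else od t ht (nx (s, 2))
  | Sum.inr (s, k, false) => Sum.inl (s, false, ⟨(k : ℕ) + 1, by omega⟩, true)
  | Sum.inr (s, k, true) => Sum.inl (s, true, ⟨(k : ℕ), by omega⟩, true)

theorem ph_od (t : ℕ) (ht : 1 ≤ t) (x : Fin 6 × Fin 4) : ph t ht (od t ht x) = od t ht (nx x) := by
  obtain ⟨s, w⟩ := x
  fin_cases w
  · simp [od, ph]
  · simp [od, ph]
  · simp [od, ph]
  · simp [od, ph]

theorem ph3 (t : ℕ) (ht : 1 ≤ t) (d : Dt t) : ph t ht (ph t ht (ph t ht d)) = d := by
  have hod : ∀ x, ph t ht (ph t ht (od t ht (nx x))) = od t ht x := fun x => by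
    rw [ph_od, ph_od, nx3]
  rcases d with ⟨s, e, j, f⟩ | ⟨s, k, f⟩
  · cases e <;> cases f
    · by_cases h : (j : ℕ) < 2 * t - 1
      · simp [ph, h]
      · have hj : (j : ℕ) = 2 * t - 1 := by omega
        have e1 : ph t ht (Sum.inl (s, false, j, false)) = od t ht (nx (s, 1)) := by simp [ph, h]
        rw [e1, hod]
        simp only [od]
        simp [Fin.ext_iff, hj]
    · by_cases h : (j : ℕ) = 0
      · have e1 : ph t ht (Sum.inl (s, false, j, true)) = od t ht (nx (s, 0)) := by simp [ph, h]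
        rw [e1, hod]
        simp only [od]
        simp [Fin.ext_iff, h]
      · have h2 : (j : ℕ) - 1 < 2 * t - 1 := by omega
        have h3 : (j : ℕ) - 1 + 1 = j := by omega
        simp [ph, h, h2, h3]
    · by_cases h : (j : ℕ) = 0
      · have e1 : ph t ht (Sum.inl (s, true, j, false)) = od t ht (nx (s, 3)) := by simp [ph, h]
        rw [e1, hod]
        simp only [od]
        simp [Fin.ext_iff, h]
      · have h2 : (j : ℕ) - 1 < 2 * t - 1 := by omega
        have h3 : (j : ℕ) - 1 + 1 = j := by omega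
        simp [ph, h, h2, h3]
    · by_cases h : (j : ℕ) < 2 * t - 1
      · simp [ph, h]
      · have hj : (j : ℕ) = 2 * t - 1 := by omega
        have e1 : ph t ht (Sum.inl (s, true, j, true)) = od t ht (nx (s, 2)) := by simp [ph, h]
        rw [e1, hod]
        simp only [od]
        simp [Fin.ext_iff, hj]
  · have hk := k.2
    cases f
    · simp [ph]
    · simp [ph]

/-- colours of the ends of the outer darts -/
def otc (x : Fin 6 × Fin 4) : Col := ![A x.1, (x.1, false), B x.1, (x.1, true)] x.2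

/-- colours of the ends of the outer darts -/
def ohc (x : Fin 6 × Fin 4) : Col := ![(x.1, false), B x.1, (x.1, true), A x.1] x.2

theorem ohc_nx : ∀ x, ohc x = otc (nx x) := by decide

theorem qc_zero (t : ℕ) (s : Fin 6) : qc t s 0 = A s := by simp [qc]

theorem qp_zero (t : ℕ) : qp t 0 = 0 := by simp [qp]

theorem qc_last (t : ℕ) (ht : 1 ≤ t) (s : Fin 6) : qc t s (2 * t - 1) = B s := by
  unfold qc; rw [if_neg (by omega), if_pos rfl]

theorem qp_last (t : ℕ) (ht : 1 ≤ t) : qp t (2 * t - 1) = 0 := by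
  unfold qp; rw [if_neg (by omega), if_pos rfl]

theorem tc_od (t : ℕ) (ht : 1 ≤ t) (x : Fin 6 × Fin 4) :
    tc t (od t ht x) = otc x ∧ hc t (od t ht x) = ohc x ∧ tp t (od t ht x) = 0 ∧
      hp t (od t ht x) = 0 := by
  obtain ⟨s, w⟩ := x
  fin_cases w
  · simp [od, tc, hc, tp, hp, otc, ohc, qc_zero, qp_zero]
  · simp [od, tc, hc, tp, hp, otc, ohc, qc_last t ht, qp_last t ht]
  · simp [od, tc, hc, tp, hp, otc, ohc, qc_last t ht, qp_last t ht]
  · simp [od, tc, hc, tp, hp, otc, ohc, qc_zero, qp_zero]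

theorem ph_ends (t : ℕ) (ht : 1 ≤ t) (d : Dt t) :
    tc t (ph t ht d) = hc t d ∧ tp t (ph t ht d) = hp t d := by
  have hod : ∀ x, tc t (od t ht (nx x)) = ohc x ∧ tp t (od t ht (nx x)) = 0 := fun x =>
    ⟨by rw [(tc_od t ht _).1, ohc_nx], (tc_od t ht _).2.2.1⟩
  rcases d with ⟨s, e, j, f⟩ | ⟨s, k, f⟩
  · cases e <;> cases f
    · by_cases h : (j : ℕ) < 2 * t - 1
      · simp [ph, h, tc, hc, tp, hp]
      · have hj : (j : ℕ) = 2 * t - 1 := by omega
        have e1 : ph t ht (Sum.inl (s, false, j, false)) = od t ht (nx (s, 1)) := by simp [ph, h]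
        rw [e1, (hod _).1, (hod _).2]
        simp [ohc, hc, hp, hj, qc_last t ht, qp_last t ht]
    · by_cases h : (j : ℕ) = 0
      · have e1 : ph t ht (Sum.inl (s, false, j, true)) = od t ht (nx (s, 0)) := by simp [ph, h]
        rw [e1, (hod _).1, (hod _).2]
        simp [ohc, hc, hp]
      · simp [ph, h, tc, hc, tp, hp]
    · by_cases h : (j : ℕ) = 0
      · have e1 : ph t ht (Sum.inl (s, true, j, false)) = od t ht (nx (s, 3)) := by simp [ph, h]
        rw [e1, (hod _).1, (hod _).2]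
        simp [ohc, hc, hp, h, qc_zero, qp_zero]
      · have h3 : (j : ℕ) - 1 + 1 = j := by omega
        simp [ph, h, tc, hc, tp, hp, h3]
    · by_cases h : (j : ℕ) < 2 * t - 1
      · simp [ph, h, tc, hc, tp, hp]
      · have hj : (j : ℕ) = 2 * t - 1 := by omega
        have e1 : ph t ht (Sum.inl (s, true, j, true)) = od t ht (nx (s, 2)) := by simp [ph, h]
        rw [e1, (hod _).1, (hod _).2]
        simp [ohc, hc, hp]
  · cases f <;> simp [ph, tc, hc, tp, hp]

end Pool.Agent.R4.Thick
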