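import Pool.Agent.R4.Thick.Tri

/-!
# The triangulations as surfaces; the number of darts at every colour
-/

set_option autoImplicit false

namespace Pool.Agent.R4.Thick

open Pool.Agent.H671R2.OOF

/-! ### connectedness -/

/-- the relation generated by the triangles and the reversal -/
abbrev RR (t : ℕ) (ht : 1 ≤ t) : Dt t → Dt t → Prop :=
  Relation.EqvGen (fun a b => b = ph t ht a ∨ b = rv t a)

theorem RR.ph (t : ℕ) (ht : 1 ≤ t) (a : Dt t) : RR t ht a (Thick.ph t ht a) :=
  Relation.EqvGen.rel _ _ (Or.inl rfl)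

theorem RR.rv (t : ℕ) (ht : 1 ≤ t) (a : Dt t) : RR t ht a (Thick.rv t a) :=
  Relation.EqvGen.rel _ _ (Or.inr rfl)

theorem RR.tr {t : ℕ} {ht : 1 ≤ t} {a b c : Dt t} (h1 : RR t ht a b) (h2 : RR t ht b c) :
    RR t ht a c := Relation.EqvGen.trans _ _ _ h1 h2

theorem RR.sy {t : ℕ} {ht : 1 ≤ t} {a b : Dt t} (h1 : RR t ht a b) : RR t ht b a :=
  Relation.EqvGen.symm _ _ h1

/-- base dart of a strip -/
def bs (t : ℕ) (ht : 1 ≤ t) (s : Fin 6) : Dt t := Sum.inr (s, ⟨0, by omega⟩, false)

theorem conn_seg (t : ℕ) (ht : 1 ≤ t) (s : Fin 6) (k : ℕ) (hk : k < 2 * t - 1) :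
    RR t ht (bs t ht s) (Sum.inr (s, ⟨k, hk⟩, false)) := by
  induction k with
  | zero => exact Relation.EqvGen.refl _
  | succ k ih =>
    have h1 := ih (by omega)
    have h2 := RR.ph t ht (Sum.inr (s, ⟨k, by omega⟩, false))
    have h3 := RR.rv t ht (ph t ht (Sum.inr (s, ⟨k, by omega⟩, false)))
    have h4 := RR.ph t ht (rv t (ph t ht (Sum.inr (s, ⟨k, by omega⟩, false))))
    have h5 : ph t ht (rv t (ph t ht (Sum.inr (s, ⟨k, by omega⟩, false)))) =
        Sum.inr (s, ⟨k + 1, hk⟩, false) := by
      simp [ph, rv, hk]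
    rw [h5] at h4
    exact h1.tr (h2.tr (h3.tr h4))

theorem conn_strip (t : ℕ) (ht : 1 ≤ t) (d : Dt t) :
    RR t ht (bs t ht (Sum.elim (fun x => x.1) (fun x => x.1) d)) d := by
  have hseg : ∀ (s : Fin 6) (k : Fin (2 * t - 1)) (f : Bool),
      RR t ht (bs t ht s) (Sum.inr (s, k, f)) := by
    intro s k f
    cases f
    · exact conn_seg t ht s k k.2
    · exact (conn_seg t ht s k k.2).tr (RR.rv t ht (Sum.inr (s, k, false)))
  rcases d with ⟨s, e, j, f⟩ | ⟨s, k, f⟩
  · show RR t ht (bs t ht s) _
    have key : ∃ f', RR t ht (bs t ht s) (Sum.inl (s, e, j, f')) := by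
      cases e
      · by_cases h : (j : ℕ) < 2 * t - 1
        · refine ⟨false, ?_⟩
          have h1 := RR.ph t ht (Sum.inl (s, false, j, false))
          have h2 : ph t ht (Sum.inl (s, false, j, false)) = Sum.inr (s, ⟨j, h⟩, false) := by
            simp [ph, h]
          rw [h2] at h1
          exact (hseg s _ _).tr h1.sy
        · refine ⟨true, ?_⟩
          have hj := j.2
          have h1 := RR.ph t ht (Sum.inr (s, ⟨2 * t - 2, by omega⟩, false))
          have h2 : ph t ht (Sum.inr (s, ⟨2 * t - 2, by omega⟩, false)) =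
              Sum.inl (s, false, j, true) := by
            simp only [ph]
            have : (⟨2 * t - 2 + 1, by omega⟩ : Fin (2 * t)) = j := Fin.ext (by simp; omega)
            rw [this]
          rw [h2] at h1
          exact (hseg s _ _).tr h1
      · by_cases h : (j : ℕ) < 2 * t - 1
        · refine ⟨true, ?_⟩
          have h1 := RR.ph t ht (Sum.inr (s, ⟨j, h⟩, true))
          have h2 : ph t ht (Sum.inr (s, ⟨j, h⟩, true)) = Sum.inl (s, true, j, true) := by
            simp [ph]
          rw [h2] at h1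
          exact (hseg s _ _).tr h1
        · refine ⟨false, ?_⟩
          have hj := j.2
          have h1 := RR.ph t ht (Sum.inl (s, true, j, false))
          have h0 : (j : ℕ) ≠ 0 := by omega
          have h2 : ph t ht (Sum.inl (s, true, j, false)) =
              Sum.inr (s, ⟨(j : ℕ) - 1, by omega⟩, true) := by
            simp [ph, h0]
          rw [h2] at h1
          exact (hseg s _ _).tr h1.sy
    obtain ⟨f', hf'⟩ := key
    by_cases hff : f = f'
    · rw [hff]; exact hf'
    · have h1 := RR.rv t ht (Sum.inl (s, e, j, f'))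
      have h2 : rv t (Sum.inl (s, e, j, f')) = Sum.inl (s, e, j, f) := by
        cases f <;> cases f' <;> simp_all [rv]
      rw [h2] at h1
      exact hf'.tr h1
  · exact hseg s k f

theorem strip_od (t : ℕ) (ht : 1 ≤ t) (x : Fin 6 × Fin 4) :
    Sum.elim (fun x => x.1) (fun x => x.1) (od t ht x) = x.1 := by
  unfold od
  split_ifs <;> rfl

theorem conn_link (t : ℕ) (ht : 1 ≤ t) (x : Fin 6 × Fin 4) :
    RR t ht (bs t ht x.1) (bs t ht (nx x).1) := by
  have h1 := conn_strip t ht (od t ht x)
  have h2 := conn_strip t ht (od t ht (nx x))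
  rw [strip_od] at h1 h2
  have h3 := RR.ph t ht (od t ht x)
  rw [ph_od] at h3
  exact h1.tr (h3.tr h2.sy)

theorem conn_all (t : ℕ) (ht : 1 ≤ t) (d d' : Dt t) : RR t ht d d' := by
  have h : ∀ s, RR t ht (bs t ht 0) (bs t ht s) := by
    intro s
    have h1 : RR t ht (bs t ht 0) (bs t ht 1) := conn_link t ht (0, 0)
    have h3 : RR t ht (bs t ht 0) (bs t ht 3) := conn_link t ht (0, 1)
    have h2 : RR t ht (bs t ht 0) (bs t ht 2) := conn_link t ht (0, 2)
    have h4 : RR t ht (bs t ht 0) (bs t ht 4) := conn_link t ht (0, 3)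
    have h5 : RR t ht (bs t ht 1) (bs t ht 5) := conn_link t ht (1, 3)
    fin_cases s
    · exact Relation.EqvGen.refl _
    · exact h1
    · exact h2
    · exact h3
    · exact h4
    · exact h1.tr h5
  exact (((h _).tr (conn_strip t ht d)).sy).tr ((h _).tr (conn_strip t ht d'))

/-! ### the surface -/

theorem surj_tail (t : ℕ) (ht : 1 ≤ t) (v : Vt t) :
    ∃ d, (tc t d, ((tp t d : ℕ) : ZMod t)) = v := by
  have : NeZero t := ⟨by omega⟩
  obtain ⟨⟨i, b⟩, z⟩ := v
  by_cases hz : z = 0
  · refine ⟨Sum.inl (i, b, ⟨0, by omega⟩, false), ?_⟩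
    simp [tc, tp, hz]
  · have h1 : 1 ≤ z.val := by
      have : z.val ≠ 0 := by rwa [Ne, ZMod.val_eq_zero]
      omega
    have h2 := z.val_lt
    obtain ⟨k, k1, k2, k3, k4⟩ := surj_path t (by omega) b z.val h1 h2
    refine ⟨Sum.inl (i - 1, false, ⟨k, by omega⟩, true), ?_⟩
    have e1 : qc t (i - 1) k = (i, b) := by
      unfold qc
      rw [if_neg (by omega), if_neg (by omega), k3]
      simp
    have e2 : qp t k = z.val := by
      unfold qp
      rw [if_neg (by omega), if_neg (by omega), k4]
    simp only [tc, tp]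
    rw [e1, e2, ZMod.natCast_zmod_val]

/-- the translate by `g` of the base triangulation -/
def tri (t : ℕ) (ht : 1 ≤ t) {W : Type} (e : Vt t ≃ W) (g : ZMod t) : TriSys W (Dt t) where
  tail d := e (tc t d, ((tp t d : ℕ) : ZMod t) + g)
  phi := ph t ht
  rev := rv t
  phi3 := ph3 t ht
  rev2 := rv_rv t
  tail_rev d := by rw [tc_rv, tp_rv, (ph_ends t ht d).1, (ph_ends t ht d).2]
  inj d d' h1 h2 := by
    have h1 := e.injective h1
    have h2 := e.injective h2
    rw [(ph_ends t ht d).1, (ph_ends t ht d).2, (ph_ends t ht d').1, (ph_ends t ht d').2] at h2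
    simp only [Prod.mk.injEq, add_left_inj] at h1 h2
    refine key_inj t ht d d' h1.1 h2.1 ?_
    push_cast
    rw [h1.2, h2.2]
  ne d h := by
    have h := e.injective h
    rw [(ph_ends t ht d).1, (ph_ends t ht d).2] at h
    simp only [Prod.mk.injEq, add_left_inj] at h
    refine key_ne t ht d h.1.symm ?_
    push_cast
    rw [h.2, sub_self]
  surj w := by
    obtain ⟨d, hd⟩ := surj_tail t ht ((e.symm w).1, (e.symm w).2 - g)
    refine ⟨d, ?_⟩
    simp only [Prod.mk.injEq] at hd
    rw [hd.1, hd.2, sub_add_cancel]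
    exact e.apply_symm_apply w
  conn := conn_all t ht

theorem card_Dt (t : ℕ) [NeZero t] : Nat.card (Dt t) + 12 = 6 * Nat.card (Vt t) := by
  have ht : 1 ≤ t := NeZero.one_le
  simp only [Nat.card_eq_fintype_card, Fintype.card_sum, Fintype.card_prod, Fintype.card_fin,
    Fintype.card_bool, ZMod.card]
  omega

theorem tri_planar (t : ℕ) (ht : 1 ≤ t) {W : Type} (e : Vt t ≃ W) (g : ZMod t) :
    IsPlanar (tri t ht e g).graph := by
  classical
  have : NeZero t := ⟨by omega⟩
  have : Fintype W := Fintype.ofEquiv _ e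
  refine ((tri t ht e g).isPlanar ?_).1
  rw [← Nat.card_congr e]
  exact card_Dt t

/-! ### counting the darts with a given colour of the tail -/

theorem count_side (t : ℕ) (b : Bool) :
    ((Finset.range (2 * t)).filter (fun j => pc (t + 1) (j + 1) = b)).card = t := by
  rcases Nat.eq_zero_or_pos t with h0 | h0
  · subst h0; simp
  · have ht : 2 ≤ t + 1 := by omega
    conv_rhs => rw [← Finset.card_range t]
    refine Finset.card_bij (fun j _ => pp (t + 1) (j + 1) - 1) ?_ ?_ ?_
    · intro j hj
      rw [Finset.mem_filter, Finset.mem_range] at hj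
      have := pp_range (t + 1) (j + 1) ht (by omega) (by omega)
      rw [Finset.mem_range]
      omega
    · intro j hj j' hj' h
      rw [Finset.mem_filter, Finset.mem_range] at hj hj'
      have h1 := pp_range (t + 1) (j + 1) ht (by omega) (by omega)
      have h2 := pp_range (t + 1) (j' + 1) ht (by omega) (by omega)
      have h3 := inj_path (t + 1) (j + 1) (j' + 1) ht (by omega) (by omega) (by omega) (by omega)
        (hj.2.trans hj'.2.symm) (by omega)
      omega
    · intro x hx
      rw [Finset.mem_range] at hx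
      obtain ⟨k, k1, k2, k3, k4⟩ := surj_path (t + 1) ht b (x + 1) (by omega) (by omega)
      refine ⟨k - 1, ?_, ?_⟩
      · rw [Finset.mem_filter, Finset.mem_range]
        have : k - 1 + 1 = k := by omega
        rw [this]
        exact ⟨by omega, k3⟩
      · have : k - 1 + 1 = k := by omega
        rw [this]
        omega

theorem count_mid (t : ℕ) (s : Fin 6) (c : Col) :
    ∑ j ∈ Finset.range (2 * t), (if qc (t + 1) s (j + 1) = c then 1 else 0) =
      if c.1 = s + 1 then t else 0 := by
  have h : ∀ j ∈ Finset.range (2 * t), (if qc (t + 1) s (j + 1) = c then 1 else 0) =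
      if c.1 = s + 1 then (if pc (t + 1) (j + 1) = c.2 then 1 else 0) else 0 := by
    intro j hj
    rw [Finset.mem_range] at hj
    have e1 : qc (t + 1) s (j + 1) = (s + 1, pc (t + 1) (j + 1)) := by
      unfold qc
      rw [if_neg (by omega), if_neg (by omega)]
    rw [e1]
    obtain ⟨c1, c2⟩ := c
    simp only [Prod.mk.injEq]
    by_cases h1 : c1 = s + 1
    · subst h1; simp
    · have h2 : ¬ s + 1 = c1 := fun h => h1 h.symm
      simp [h1, h2]
  rw [Finset.sum_congr rfl h]
  by_cases h1 : c.1 = s + 1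
  · simp only [h1, if_true]
    rw [← Finset.card_filter]
    exact count_side t c.2
  · simp [h1]

theorem count_points (t : ℕ) (s : Fin 6) (c : Col) :
    ∑ j : Fin (2 * (t + 1)), (if qc (t + 1) s j = c then 1 else 0) =
      (if A s = c then 1 else 0) + (if B s = c then 1 else 0) + (if c.1 = s + 1 then t else 0) := by
  rw [Fin.sum_univ_eq_sum_range (fun j => if qc (t + 1) s j = c then 1 else 0) (2 * (t + 1))]
  have : 2 * (t + 1) = 2 * t + 1 + 1 := by ring
  rw [this, Finset.sum_range_succ, Finset.sum_range_succ', count_mid, qc_zero]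
  have h2 : 2 * t + 1 = 2 * (t + 1) - 1 := by omega
  have e2 : qc (t + 1) s (2 * t + 1) = B s := by
    rw [h2]; exact qc_last (t + 1) (by omega) s
  rw [e2]
  ring

theorem count_seg1 (t : ℕ) (s : Fin 6) (c : Col) :
    ∑ k : Fin (2 * (t + 1) - 1), (if qc (t + 1) s k = c then 1 else 0) =
      (if A s = c then 1 else 0) + (if c.1 = s + 1 then t else 0) := by
  rw [Fin.sum_univ_eq_sum_range (fun j => if qc (t + 1) s j = c then 1 else 0) (2 * (t + 1) - 1)]
  have : 2 * (t + 1) - 1 = 2 * t + 1 := by omega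
  rw [this, Finset.sum_range_succ', count_mid, qc_zero]
  ring

theorem count_seg2 (t : ℕ) (s : Fin 6) (c : Col) :
    ∑ k : Fin (2 * (t + 1) - 1), (if qc (t + 1) s (k + 1) = c then 1 else 0) =
      (if B s = c then 1 else 0) + (if c.1 = s + 1 then t else 0) := by
  rw [Fin.sum_univ_eq_sum_range (fun j => if qc (t + 1) s (j + 1) = c then 1 else 0)
    (2 * (t + 1) - 1)]
  have : 2 * (t + 1) - 1 = 2 * t + 1 := by omega
  rw [this, Finset.sum_range_succ, count_mid]
  have h2 : 2 * t + 1 = 2 * (t + 1) - 1 := by omega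
  have e2 : qc (t + 1) s (2 * t + 1) = B s := by
    rw [h2]; exact qc_last (t + 1) (by omega) s
  rw [e2]
  ring

theorem hubs_count : ∀ c : Col, ∑ s : Fin 6, ((if A s = c then 1 else 0) +
    (if B s = c then 1 else 0)) = 1 := by decide

theorem count_c1 (t : ℕ) (c : Col) : ∑ s : Fin 6, (if c.1 = s + 1 then t else 0) = t := by
  rw [Finset.sum_eq_single (c.1 - 1)]
  · simp
  · intro s _ hs
    rw [if_neg]
    intro h
    apply hs
    rw [h]; simp
  · intro h; exact absurd (Finset.mem_univ _) h

theorem count_hub (t : ℕ) (c : Col) :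
    ∑ s : Fin 6, ∑ e : Bool, ∑ _j : Fin (2 * (t + 1)), (if (s, e) = c then 1 else 0) =
      2 * (t + 1) := by
  have h : ∀ (s : Fin 6) (e : Bool), ∑ _j : Fin (2 * (t + 1)), (if (s, e) = c then 1 else 0) =
      if (s, e) = c then 2 * (t + 1) else 0 := by
    intro s e
    rw [Finset.sum_const, Finset.card_univ, Fintype.card_fin, smul_eq_mul, mul_ite, mul_one,
      mul_zero]
  simp only [h]
  rw [← Fintype.sum_prod_type (f := fun x : Fin 6 × Bool => if x = c then 2 * (t + 1) else 0)]
  simp

/-- every colour is the colour of the tails of `6 t - 1` darts -/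
theorem card_color (t : ℕ) (ht : 1 ≤ t) (c : Col) :
    (Finset.univ.filter (fun d : Dt t => tc t d = c)).card = 6 * t - 1 := by
  obtain ⟨t, rfl⟩ : ∃ r, t = r + 1 := ⟨t - 1, by omega⟩
  rw [Finset.card_filter, Fintype.sum_sum_type]
  simp only [Fintype.sum_prod_type, Fintype.sum_bool, tc]
  have h1 : ∑ s : Fin 6, ∑ e : Bool, ∑ j : Fin (2 * (t + 1)),
      ((if qc (t + 1) s j = c then 1 else 0) + (if (s, e) = c then 1 else 0)) =
      2 * (1 + t) + 2 * (t + 1) := by
    have h2 : ∀ (s : Fin 6) (e : Bool), ∑ j : Fin (2 * (t + 1)),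
        ((if qc (t + 1) s j = c then 1 else 0) + (if (s, e) = c then 1 else 0)) =
        ((if A s = c then 1 else 0) + (if B s = c then 1 else 0) +
          (if c.1 = s + 1 then t else 0)) +
          ∑ _j : Fin (2 * (t + 1)), (if (s, e) = c then 1 else 0) := by
      intro s e
      rw [Finset.sum_add_distrib, count_points]
    simp only [h2, Finset.sum_add_distrib]
    rw [count_hub]
    have h3 := hubs_count c
    have h4 := count_c1 t c
    rw [Finset.sum_add_distrib] at h3
    simp only [Finset.sum_const, Finset.card_univ, Fintype.card_bool, smul_eq_mul]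
    rw [← Finset.mul_sum, ← Finset.mul_sum, ← Finset.mul_sum, h4]
    omega
  have h5 : ∑ s : Fin 6, ∑ k : Fin (2 * (t + 1) - 1),
      ((if qc (t + 1) s (k + 1) = c then 1 else 0) + (if qc (t + 1) s k = c then 1 else 0)) =
      1 + 2 * t := by
    simp only [Finset.sum_add_distrib, count_seg1, count_seg2]
    have h3 := hubs_count c
    have h4 := count_c1 t c
    rw [Finset.sum_add_distrib] at h3
    rw [h4]
    omega
  have h6 : ∑ s : Fin 6, (∑ j : Fin (2 * (t + 1)),
        ((if qc (t + 1) s j = c then 1 else 0) + (if (s, true) = c then 1 else 0)) +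
      ∑ j : Fin (2 * (t + 1)),
        ((if qc (t + 1) s j = c then 1 else 0) + (if (s, false) = c then 1 else 0))) =
      2 * (1 + t) + 2 * (t + 1) := by
    rw [← h1]
    refine Finset.sum_congr rfl fun s _ => ?_
    rw [Fintype.sum_bool]
  have e : ∀ a b : ℕ, a = 2 * (1 + t) + 2 * (t + 1) → b = 1 + 2 * t → a + b = 6 * (t + 1) - 1 := by
    intro a b ha hb; omega
  exact e _ _ h6 h5

end Pool.Agent.R4.Thick
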